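import Mathlib
import Pool.Agent.Helper901PM.H

/-!
# Perfect matchings of the complete graph on twice a prime number of vertices

Let `p` be an odd prime and let `L` be a list of `p` integers, each between `1` and `p - 1`. The
complete graph on `{0, ..., 2p-1}` has a perfect matching whose list of edge lengths is `L` if and
only if the number of even entries of `L` is even.
-/

namespace Pool.Agent.Results.MP_b0b062_co.PrescribedLengths

open Pool.Agent.Helper901PM

theorem result : ∀ p : ℕ, p.Prime → Odd p → ∀ L : Multiset ℕ, Multiset.card L = p →
    (∀ l ∈ L, 1 ≤ l ∧ l ≤ p - 1) →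
    ((∃ F : Finset (Sym2 (Fin (2 * p))), IsPerfectMatching p F ∧ F.val.map (edgeLength p) = L) ↔
      Even (Multiset.card (L.filter (fun l => Even l)))) := by
  intro p hp hodd L hcard hL
  constructor
  · rintro ⟨F, hF, hFL⟩
    exact necessity hodd hcard hF hFL
  · intro h
    exact sufficiency hp hodd hcard hL h

end Pool.Agent.Results.MP_b0b062_co.PrescribedLengths
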